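import Pool.Agent.MP_77bbd4_lc.Defs

universe u

open Cardinal

namespace Pool.Agent.MP_77bbd4_lc

/-- Every downward directed set of fewer than `μ` conditions has a lower bound. -/
def DirClosed (P : Type u) [PartialOrder P] (μ : Cardinal.{u}) : Prop :=
  ∀ s : Set P, #s < μ → DirectedOn (· ≥ ·) s → BddBelow s

end Pool.Agent.MP_77bbd4_lc
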