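import Pool.Agent.MP_77bbd4_lc.Distrib

/-! Partitions into sets that are fat in a game sense. -/

universe u

open Set Cardinal

namespace Pool.Agent.MP_77bbd4_lc.NP

variable {X L : Type u} [LinearOrder X] [LinearOrder L] {ρ ν μ : Cardinal.{u}} {θ : Ordinal.{u}}

/-- Every set of at most `ρ` points has a strict upper bound. -/
def Bd (X : Type u) [LinearOrder X] (ρ : Cardinal.{u}) : Prop :=
  ∀ s : Set X, #s ≤ ρ → ∃ b, ∀ x ∈ s, x < b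

/-- Recursion on the ordinals. -/
noncomputable def fixp {Y : Type u} (F : (α : Ordinal.{u}) → (Iio α → Y) → Y) : Ordinal.{u} → Y :=
  (wellFounded_lt (α := Ordinal.{u})).fix fun α ih => F α fun β => ih β β.2

theorem fixp_eq {Y : Type u} (F : (α : Ordinal.{u}) → (Iio α → Y) → Y) (α : Ordinal.{u}) :
    fixp F α = F α fun β => fixp F β := WellFounded.fix_eq _ _ _

theorem card_img {Y : Type u} (η : Ordinal.{u} → Y) : #(η '' Iio θ) ≤ θ.card := by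
  have := mk_image_le_lift (f := η) (s := Iio θ)
  rw [mk_Iio_ordinal, lift_lift] at this
  exact lift_le.1 this

theorem Bd.fam (hb : Bd X ρ) {ι : Type u} (hι : #ι ≤ ρ) (f : ι → X) : ∃ b, ∀ i, f i < b := by
  obtain ⟨b, h⟩ := hb (range f) (mk_range_le.trans hι)
  exact ⟨b, fun i => h _ ⟨i, rfl⟩⟩

theorem Bd.ord (hb : Bd X ρ) (hθ : θ.card ≤ ρ) (f : Ordinal.{u} → X) : ∃ b, ∀ α < θ, f α < b := by
  obtain ⟨b, h⟩ := hb _ ((card_img f).trans hθ)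
  exact ⟨b, fun α hα => h _ ⟨α, hα, rfl⟩⟩

theorem Bd.gt (hb : Bd X ρ) (hρ : ℵ₀ ≤ ρ) (x : X) : ∃ y, x < y := by
  obtain ⟨b, h⟩ := hb {x} (by simpa using one_lt_aleph0.le.trans hρ)
  exact ⟨b, h x rfl⟩

theorem exists_seq (hb : Bd X ρ) (hρ : ℵ₀ ≤ ρ) (hθ : θ.card ≤ ρ) (H : X → X) (b : X) :
    ∃ g : Ordinal.{u} → X, ∀ α < θ, b < g α ∧ ∀ β < α, H (g β) < g α ∧ g β < g α := by
  have : Nonempty X := ⟨b⟩
  let g := fixp fun α (s : Iio α → X) =>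
    Classical.epsilon fun y => b < y ∧ ∀ β, H (s β) < y ∧ s β < y
  refine ⟨g, fun α hα => ?_⟩
  have h1 : b < g α ∧ ∀ β : Iio α, H (g β) < g α ∧ g β < g α := by
    rw [show g α = _ from fixp_eq _ α]
    apply Classical.epsilon_spec (p := fun y => b < y ∧ ∀ β : Iio α, H (g β) < y ∧ g β < y)
    obtain ⟨y, hy⟩ := hb.ord ((Ordinal.card_le_card hα.le).trans hθ) fun β => max (H (g β)) (g β)
    obtain ⟨z, hz⟩ := hb.gt hρ (max y b)
    rw [max_lt_iff] at hz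
    exact ⟨z, hz.2, fun β => max_lt_iff.1 ((hy β β.2).trans hz.1)⟩
  exact ⟨h1.1, fun β h => h1.2 ⟨β, h⟩⟩

theorem succ_lt (hμ : ℵ₀ ≤ μ) {α : Ordinal.{u}} (h : α < μ.ord) : α + 1 < μ.ord :=
  (isSuccLimit_ord hμ).add_one_lt h

theorem cof_bound (hμ : μ.IsRegular) {η : Ordinal.{u} → X} {d : X} (hd : IsLUB (η '' Iio μ.ord) d)
    (hx : ∀ β < μ.ord, ∃ x < d, ∀ β' < β, η β' ≤ x) {s : Set X} (hs : s ⊆ Iio d) (hc : #s < μ) :
    ∃ x < d, ∀ y ∈ s, y ≤ x := by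
  have h1 : ∀ y : s, ∃ β < μ.ord, y.1 < η β := fun y => by
    obtain ⟨_, ⟨β, h, rfl⟩, h'⟩ := (lt_isLUB_iff hd).1 (hs y.2)
    exact ⟨β, h, h'⟩
  choose f f1 f2 using h1
  obtain ⟨x, x1, x2⟩ := hx _ (Ordinal.iSup_add_one_lt_of_lt_cof (by rwa [hμ.cof_ord]) f1)
  exact ⟨x, x1, fun y hy => (f2 ⟨y, hy⟩).le.trans (x2 _ (Ordinal.lt_iSup_add_one f _))⟩

/-- Stationary sets, through closure points of functions. -/
def St (U : Set X) : Prop := ∀ h : X → X, ∃ δ ∈ U, (∃ γ, γ < δ) ∧ ∀ γ < δ, h γ < δ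

theorem St.mono {U V : Set X} (h : St U) (hUV : U ⊆ V) : St V := fun f => by
  obtain ⟨δ, h1, h2⟩ := h f
  exact ⟨δ, hUV h1, h2⟩

theorem st_union (hb : Bd X ρ) {ι : Type u} (hι : #ι ≤ ρ) (U : ι → Set X) (h : St (⋃ i, U i)) :
    ∃ i, St (U i) := by
  by_contra hn
  simp only [St, not_exists, not_forall] at hn
  choose f hf using hn
  choose H hH using fun γ => hb.fam hι fun i => f i γ
  obtain ⟨δ, h1, h2, h3⟩ := h H
  obtain ⟨i, hi⟩ := mem_iUnion.1 h1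
  exact hf i δ ⟨hi, h2, fun γ hγ => (hH γ i).trans (h3 γ hγ)⟩

theorem st_diag (hb : Bd X ρ) (hρ : ℵ₀ ≤ ρ) (hI : ∀ x : X, #(Iic x) ≤ ρ) (U : X → Set X)
    (h : St {δ | ∃ β < δ, δ ∈ U β}) : ∃ β, St (U β) := by
  by_contra hn
  simp only [St, not_exists, not_forall] at hn
  choose f hf using hn
  choose H hH using fun m : X => hb.fam (ι := Iic m × Iic m)
    (by simpa using mul_le_of_le hρ (hI m) (hI m)) fun i => f i.1 i.2
  obtain ⟨δ, ⟨β, hβ, hi⟩, h2, h3⟩ := h H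
  exact hf β δ ⟨hi, h2, fun γ hγ => (hH (max β γ)
    (⟨β, le_max_left _ _⟩, ⟨γ, le_max_right _ _⟩)).trans (h3 _ (max_lt hβ hγ))⟩

/-- Points of cofinality `ν⁺`. -/
def Pt (ν : Cardinal.{u}) (δ : X) : Prop :=
  (∀ s ⊆ Iio δ, #s ≤ ν → ∃ x < δ, ∀ y ∈ s, y ≤ x) ∧
    ∃ c ⊆ Iio δ, #c ≤ Order.succ ν ∧ ∀ γ < δ, ∃ x ∈ c, γ < x

theorem st_pt [WellFoundedLT X] (hν : ℵ₀ ≤ ν) (hb : Bd X ρ) (hI : ∀ x : X, #(Iic x) ≤ ρ)
    (hρ : Order.succ ν ≤ ρ) : St {δ : X | Pt ν δ} := by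
  intro h
  have h0 : ℵ₀ ≤ Order.succ ν := hν.trans (Order.le_succ ν)
  choose H hH using fun m : X => hb.fam (hI m) fun i => h i
  obtain ⟨b, -⟩ := hb ∅ (by simp)
  have hc : (Order.succ ν).ord.card ≤ ρ := by rwa [card_ord]
  obtain ⟨g, hg⟩ := exists_seq hb (h0.trans hρ) hc H b
  obtain ⟨y, hy⟩ := hb.ord hc g
  obtain ⟨δ, hδ⟩ := exists_isLUB (s := g '' Iio (Order.succ ν).ord)
    ⟨y, by rintro _ ⟨α, hα, rfl⟩; exact (hy α hα).le⟩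
  have h1 : ∀ α < (Order.succ ν).ord, H (g α) < δ ∧ g α < δ := fun α hα => by
    have h2 := (hg _ (succ_lt h0 hα)).2 α (lt_add_one α)
    have h3 : g (α + 1) ≤ δ := hδ.1 ⟨_, succ_lt h0 hα, rfl⟩
    exact ⟨h2.1.trans_le h3, h2.2.trans_le h3⟩
  refine ⟨δ, ⟨fun s hs hc => cof_bound (isRegular_succ hν) hδ
    (fun β hβ => ⟨g β, (h1 β hβ).2, fun β' h => ((hg β hβ).2 β' h).2.le⟩) hs
    (Order.lt_succ_iff.2 hc), _, ?_, (card_img g).trans (card_ord _).le,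
    fun γ hγ => (lt_isLUB_iff hδ).1 hγ⟩, ⟨g 0, (h1 0 (isRegular_succ hν).ord_pos).2⟩, fun γ hγ => ?_⟩
  · rintro _ ⟨α, hα, rfl⟩
    exact (h1 α hα).2
  · obtain ⟨_, ⟨α, hα, rfl⟩, h2⟩ := (lt_isLUB_iff hδ).1 hγ
    exact (hH (g α) ⟨γ, h2.le⟩).trans (h1 α hα).1

/-- The filtration of the points below `δ`. -/
def fil (e : X → X → L) (i : L) (δ : X) : Set X := {γ | γ < δ ∧ e δ γ < i}

/-- The piece of the filtration is cofinal, closed under small suprema and coherent. -/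
def Good (ν : Cardinal.{u}) (a : X → Set X) (δ : X) : Prop :=
  (∀ γ < δ, ∃ x ∈ a δ, γ < x) ∧
  (∀ s ⊆ a δ, s.Nonempty → #s ≤ ν → ∀ γ, IsLUB s γ → γ ∈ a δ) ∧
  (∀ γ ∈ a δ, a γ = a δ ∩ Iio γ) ∧ ∀ s ⊆ a δ, #s ≤ ν → ∃ x < δ, ∀ y ∈ s, y ≤ x

omit [LinearOrder L] in
theorem card_fil {e : X → X → L} (he : ∀ δ, InjOn (e δ) (Iio δ)) (δ : X) (t : Set L) :
    #{γ | γ < δ ∧ e δ γ ∈ t} ≤ #t :=
  mk_le_of_injective (f := fun x : {γ | γ < δ ∧ e δ γ ∈ t} => (⟨e δ x, x.2.2⟩ : t))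
    fun x y h => Subtype.ext (he δ x.2.1 y.2.1 (congrArg Subtype.val h))

theorem exists_good [WellFoundedLT X] [WellFoundedLT L] (hν : ℵ₀ ≤ ν) (hb : Bd L (Order.succ ν))
    (hI : ∀ x : L, #(Iic x) ≤ Order.succ ν) {e : X → X → L} (he : ∀ δ, InjOn (e δ) (Iio δ))
    {δ : X} (hδ : Pt ν δ) : ∃ i, Good ν (fil e i) δ := by
  classical
  have : Nonempty X := ⟨δ⟩
  have h0 : ℵ₀ ≤ Order.succ ν := hν.trans (Order.le_succ ν)
  obtain ⟨d1, c, c1, c2, c3⟩ := hδ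
  let A : L → Set X := fun j => {γ | γ < δ ∧ e δ γ ∈ Iic j}
  have hA : ∀ j, #(A j) ≤ Order.succ ν := fun j => (card_fil he δ _).trans (hI j)
  obtain ⟨g1, G1⟩ := hb.fam c2 fun x => e δ x
  choose g2 G2 using fun j => hb.fam (ι := ↥(insert δ (A j)))
    (mk_insert_le.trans (add_le_of_le h0 (hA j) (one_lt_aleph0.le.trans h0)))
    fun y => e δ (Classical.epsilon (IsLUB (A j ∩ Iio y.1)))
  choose g3 G3 using fun j => hb.fam (ι := A j × Iic j)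
    (by simpa using mul_le_of_le h0 (hA j) (hI j))
    fun y => e δ (Function.invFunOn (e y.1) (Iio y.1.1) y.2)
  choose g4 G4 using fun j => hb.fam (ι := A j × A j)
    (by simpa using mul_le_of_le h0 (hA j) (hA j)) fun y => e y.1 y.2
  obtain ⟨i, ⟨i1, -⟩, ⟨j0, hj0⟩, i2⟩ := st_pt hν hb hI le_rfl
    fun j => max (max g1 (g2 j)) (max (g3 j) (g4 j))
  simp only [max_lt_iff] at i2
  refine ⟨i, fun γ hγ => ?_, fun s hs hn hc γ hγ => ?_, fun γ hγ => ?_,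
    fun s hs => d1 s fun x hx => (hs hx).1⟩
  · obtain ⟨x, x1, x2⟩ := c3 γ hγ
    exact ⟨x, ⟨c1 x1, (G1 ⟨x, x1⟩).trans (i2 j0 hj0).1.1⟩, x2⟩
  · obtain ⟨j, j1, j2⟩ := i1 (e δ '' s) (by rintro _ ⟨x, hx, rfl⟩; exact (hs hx).2)
      (mk_image_le.trans hc)
    obtain ⟨x, x1, x2⟩ := d1 s (fun x hx => (hs hx).1) hc
    have hγδ : γ < δ := (hγ.2 x2).trans_lt x1
    obtain ⟨y, ⟨y1, y2⟩, y3⟩ := wellFounded_lt.has_min (insert δ (A j) ∩ Ioi γ)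
      ⟨δ, mem_insert _ _, hγδ⟩
    have h1 : IsLUB (A j ∩ Iio y) γ :=
      ⟨fun z hz => not_lt.1 fun h => y3 z ⟨mem_insert_of_mem _ hz.1, h⟩ hz.2,
        fun z hz => hγ.2 fun w hw => hz ⟨⟨(hs hw).1, j2 _ ⟨w, hw, rfl⟩⟩, (hγ.1 hw).trans_lt y2⟩⟩
    have h2 := G2 j ⟨y, y1⟩
    rw [(Classical.epsilon_spec ⟨γ, h1⟩).unique h1] at h2
    exact ⟨hγδ, h2.trans (i2 j j1).1.2⟩
  · ext x
    constructor
    · rintro ⟨x1, x2⟩
      have h2 := G3 (max (e δ γ) (e γ x)) (⟨γ, hγ.1, le_max_left _ _⟩, ⟨e γ x, le_max_right _ _⟩)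
      simp only [(he γ).leftInvOn_invFunOn x1] at h2
      exact ⟨⟨x1.trans hγ.1, h2.trans (i2 _ (max_lt hγ.2 x2)).2.1⟩, x1⟩
    · rintro ⟨⟨x1, x2⟩, x3⟩
      exact ⟨x3, (G4 (max (e δ γ) (e δ x)) (⟨γ, hγ.1, le_max_left _ _⟩,
        ⟨x, x1, le_max_right _ _⟩)).trans (i2 _ (max_lt hγ.2 x2)).2.2⟩

theorem exists_split [WellFoundedLT X] (hρ : ℵ₀ ≤ μ) (hb : Bd X ρ) (hI : ∀ x : X, #(Iic x) ≤ ρ)
    (hμ : Order.succ μ ≤ ρ) {a : X → Set X} (ha : ∀ δ, #(a δ) ≤ μ) (ha' : ∀ δ, a δ ⊆ Iio δ)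
    (h : St {δ | Good ν a δ}) :
    ∃ b, ρ < #{v | St {δ | Good ν a δ ∧ IsLeast (a δ ∩ Ioi b) v}} := by
  have h0 := hρ.trans ((Order.le_succ μ).trans hμ)
  by_contra hn
  simp only [not_exists, not_lt] at hn
  choose H hH using fun b => hb _ (hn b)
  obtain ⟨d, ⟨d1, -⟩, -, d2⟩ := st_pt hρ hb hI hμ H
  obtain ⟨b, hb'⟩ := st_union hb ((mk_le_mk_of_subset Iio_subset_Iic_self).trans (hI d))
    (fun b : Iio d => {δ | Good ν a δ ∧ d < δ ∧ ∀ y ∈ a δ ∩ Iio d, y ≤ b.1}) fun f => by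
      obtain ⟨δ, h1, ⟨γ, h2⟩, h3⟩ := h fun γ => max (f γ) d
      obtain ⟨x, x1, x2⟩ := d1 (a δ ∩ Iio d) inter_subset_right
        ((mk_le_mk_of_subset inter_subset_left).trans (ha δ))
      exact ⟨δ, mem_iUnion.2 ⟨⟨x, x1⟩, h1, (max_lt_iff.1 (h3 γ h2)).2, x2⟩, ⟨γ, h2⟩,
        fun y hy => (max_lt_iff.1 (h3 y hy)).1⟩
  obtain ⟨v, hv⟩ := st_diag hb h0 hI
    (fun v => {δ | (Good ν a δ ∧ IsLeast (a δ ∩ Ioi b.1) v) ∧ d ≤ v}) (hb'.mono fun δ hδ => by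
      obtain ⟨x, x1, x2⟩ := hδ.1.1 b.1 (b.2.trans hδ.2.1)
      obtain ⟨y, y1, y2⟩ := wellFounded_lt.has_min (a δ ∩ Ioi b.1) ⟨x, x1, x2⟩
      exact ⟨y, ha' δ y1.1, ⟨hδ.1, y1, fun w hw => not_lt.1 (y2 w hw)⟩,
        not_lt.1 fun h => (hδ.2.2 y ⟨y1.1, h⟩).not_gt y1.2⟩)
  obtain ⟨δ, h1, -⟩ := hv id
  exact ((hH b v (hv.mono fun _ h => h.1)).trans (d2 b b.2)).not_ge h1.2

/-- For every rule there is a run of length `θ` whose markers have all their suprema in `T`. -/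
def Fat (θ : Ordinal.{u}) (T : Set X) : Prop :=
  ∀ (Y : Type u) (ht : Y → X) (F : (α : Ordinal.{u}) → (Iio α → Y × X) → Y),
    ∃ r : Ordinal.{u} → Y × X, (∀ α, (r α).1 = F α fun β => r β) ∧
      (∀ α < θ, ht (r α).1 ≤ (r α).2) ∧
      ∀ α ≤ θ, 0 < α → ∀ γ, IsLUB ((fun β => (r β).2) '' Iio α) γ → γ ∈ T

theorem fat_of [WellFoundedLT X] (hb : Bd X ν) (hθ : θ.card ≤ ν) {a : X → Set X} {U T : Set X}
    (ha : ∀ δ, a δ ⊆ Iio δ) (hU : St U) (b : X)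
    (hG : ∀ δ ∈ U, Good ν a δ ∧ ∀ γ ∈ a δ, b < γ → γ ∈ T) : Fat θ T := by
  intro Y ht F
  have : Nonempty X := ⟨b⟩
  let run : Set X → Ordinal.{u} → Y × X := fun A => fixp fun α s =>
    (F α s, Classical.epsilon (IsLeast (A ∩ Ioi (max (ht (F α s)) b))))
  have r1 : ∀ A α, (run A α).1 = F α fun β => run A β := fun A α =>
    congrArg Prod.fst (fixp_eq _ α)
  have r2 : ∀ A α, (run A α).2 = Classical.epsilon (IsLeast (A ∩ Ioi (max (ht (run A α).1) b))) :=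
    fun A α => by rw [r1]; exact congrArg Prod.snd (fixp_eq _ α)
  choose h hh using fun γ => hb.ord hθ fun α => max (ht (run (a γ) α).1) b
  obtain ⟨δ, hδ, -, hc⟩ := hU h
  obtain ⟨⟨g1, g2, g3, g4⟩, g5⟩ := hG δ hδ
  have key : ∀ α < θ, IsLeast (a δ ∩ Ioi (max (ht (run (a δ) α).1) b)) (run (a δ) α).2 := by
    intro α
    induction α using WellFoundedLT.induction with | ind α ih =>
    intro hα
    obtain ⟨x, x1, x2⟩ := g4 ((fun β => (run (a δ) β).2) '' Iio α)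
      (by rintro _ ⟨β, hβ, rfl⟩; exact (ih β hβ (hβ.trans hα)).1.1)
      ((card_img _).trans ((Ordinal.card_le_card hα.le).trans hθ))
    obtain ⟨γ, γ1, γ2⟩ := g1 x x1
    have h1 : ∀ β < α, run (a γ) β = run (a δ) β := by
      intro β
      induction β using WellFoundedLT.induction with | ind β ih2 =>
      intro hβ
      have h2 : (run (a γ) β).1 = (run (a δ) β).1 := by
        rw [r1, r1]
        exact congrArg _ (funext fun z => ih2 z z.2 (z.2.trans hβ))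
      refine Prod.ext h2 ?_
      have h3 := ih β hβ (hβ.trans hα)
      have h4 : IsLeast (a γ ∩ Ioi (max (ht (run (a δ) β).1) b)) (run (a δ) β).2 := by
        rw [g3 γ γ1]
        exact ⟨⟨⟨h3.1.1, (x2 _ ⟨β, hβ, rfl⟩).trans_lt γ2⟩, h3.1.2⟩, fun z hz => h3.2 ⟨hz.1.1, hz.2⟩⟩
      rw [r2 (a γ), h2]
      exact (Classical.epsilon_spec ⟨_, h4⟩).unique h4
    have h2 : (run (a γ) α).1 = (run (a δ) α).1 := by
      rw [r1, r1]
      exact congrArg _ (funext fun z => h1 z z.2)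
    obtain ⟨z, z1, z2⟩ := g1 _ ((h2 ▸ hh γ α hα).trans (hc γ (ha δ γ1)))
    obtain ⟨y, y1, y2⟩ := wellFounded_lt.has_min (a δ ∩ Ioi (max (ht (run (a δ) α).1) b)) ⟨z, z1, z2⟩
    rw [r2]
    exact Classical.epsilon_spec ⟨y, y1, fun w hw => not_lt.1 (y2 w hw)⟩
  refine ⟨run (a δ), r1 _, fun α hα => (max_lt_iff.1 (key α hα).1.2).1.le, fun α hα h0 γ hγ => ?_⟩
  refine g5 γ (g2 _ ?_ (Nonempty.image _ ⟨0, h0⟩)
    ((card_img _).trans ((Ordinal.card_le_card hα).trans hθ))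
    γ hγ) ((max_lt_iff.1 (key 0 (h0.trans_le hα)).1.2).2.trans_le (hγ.1 ⟨0, h0, rfl⟩))
  rintro _ ⟨β, hβ, rfl⟩
  exact (key β (hβ.trans_le hα)).1.1

theorem succ_type (hρ : ℵ₀ ≤ ρ) : Bd (Order.succ ρ).ord.ToType ρ ∧
    ∀ x : (Order.succ ρ).ord.ToType, #(Iic x) ≤ ρ := by
  refine ⟨fun s hs => ?_, fun x => ?_⟩
  · by_contra h
    have hcof : IsCofinal s := fun a => by
      by_contra h'
      exact h ⟨a, fun x hx => not_le.1 fun h'' => h' ⟨x, hx, h''⟩⟩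
    have h1 := Order.cof_le hcof
    rw [Ordinal.cof_toType, (isRegular_succ hρ).cof_ord] at h1
    exact (Order.lt_succ ρ).not_ge (h1.trans hs)
  · rw [← Iio_insert]
    refine mk_insert_le.trans (add_le_of_le hρ (Order.lt_succ_iff.1 ?_) (one_lt_aleph0.le.trans hρ))
    simpa using mk_Iio_lt x

theorem exists_fat (hν : ℵ₀ ≤ ν) (hθ : θ.card ≤ ν) (I : Type u) [Nonempty I] (hI : #I ≤ ν) :
    ∃ (X : Type u) (_ : LinearOrder X) (_ : WellFoundedLT X) (f : X → I),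
      Bd X ν ∧ ∀ i, Fat θ (f ⁻¹' {i}) := by
  classical
  have h1 : ℵ₀ ≤ Order.succ ν := hν.trans (Order.le_succ _)
  have h2 : ℵ₀ ≤ Order.succ (Order.succ ν) := h1.trans (Order.le_succ _)
  have h3 : ν ≤ Order.succ (Order.succ ν) := (Order.le_succ _).trans (Order.le_succ _)
  obtain ⟨l1, l2⟩ := succ_type h1
  obtain ⟨x1, x2⟩ := succ_type h2
  set L := (Order.succ (Order.succ ν)).ord.ToType
  set X := (Order.succ (Order.succ (Order.succ ν))).ord.ToType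
  have hL : #L = Order.succ (Order.succ ν) := mk_ord_toType _
  have he : ∀ δ : X, ∃ e : X → L, InjOn e (Iio δ) := fun δ => by
    obtain ⟨f⟩ := (Cardinal.le_def (Iic δ) L).1 ((x2 δ).trans hL.ge)
    refine ⟨fun x => f ⟨min x δ, mem_Iic.2 (min_le_right x δ)⟩, fun x hx y hy h => ?_⟩
    simpa [min_eq_left (mem_Iio.1 hx).le, min_eq_left (mem_Iio.1 hy).le] using h
  choose e he using he
  obtain ⟨i, hi⟩ := st_union x1 hL.le (fun i => {δ | Good ν (fil e i) δ})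
    ((st_pt hν x1 x2 (Order.le_succ _)).mono fun δ hδ => mem_iUnion.2 (exists_good hν l1 l2 he hδ))
  have ha : ∀ δ, fil e i δ ⊆ Iio δ := fun δ x hx => hx.1
  obtain ⟨b, hb⟩ := exists_split (a := fil e i) h1 x1 x2 le_rfl (fun δ => (card_fil he δ (Iio i)).trans
    ((mk_le_mk_of_subset Iio_subset_Iic_self).trans (l2 i))) ha hi
  obtain ⟨v⟩ := (Cardinal.le_def _ _).1 (hI.trans (h3.trans hb.le))
  have x3 : Bd X ν := fun s hs => x1 s (hs.trans h3)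
  refine ⟨X, inferInstance, inferInstance,
    fun γ => Classical.epsilon fun j => IsLeast (fil e i γ ∩ Ioi b) (v j).1, x3,
    fun j => fat_of x3 hθ ha (v j).2 (v j).1 fun δ h => ⟨h.1, fun γ hγ hv => ?_⟩⟩
  have h4 : IsLeast (fil e i γ ∩ Ioi b) (v j).1 := by
    rw [h.1.2.2.1 γ hγ]
    exact ⟨⟨⟨h.2.1.1, hv⟩, h.2.1.2⟩, fun z hz => h.2.2 ⟨hz.1.1, hz.2⟩⟩
  exact v.injective (Subtype.ext ((Classical.epsilon_spec
    (p := fun j => IsLeast (fil e i γ ∩ Ioi b) (v j).1) ⟨j, h4⟩).unique h4))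

end Pool.Agent.MP_77bbd4_lc.NP
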