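import Pool.Agent.MP_77bbd4_lc.NP.Fat
import Pool.Agent.MP_77bbd4_lc.NP.Defs

/-! The posets attached to a fat set. -/

universe u

open Set Cardinal

namespace Pool.Agent.MP_77bbd4_lc.NP

variable {X : Type u} [LinearOrder X] {ν μ κ : Cardinal.{u}} {θ : Ordinal.{u}} {T : Set X}

/-- The points of `T` that are not suprema of fewer than `μ` smaller points. -/
def Forb (μ : Cardinal.{u}) (T : Set X) : Set X :=
  {γ | γ ∈ T ∧ ∀ s ⊆ Iio γ, #s < μ → ¬ IsLUB s γ}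

theorem mem_forb (hμ : μ.IsRegular) {η : Ordinal.{u} → X} {d : X} (hT : d ∈ T)
    (hd : IsLUB (η '' Iio μ.ord) d) (hx : ∀ β < μ.ord, ∃ x < d, ∀ β' < β, η β' ≤ x) :
    d ∈ Forb μ T := ⟨hT, fun s hs hc h => by
  obtain ⟨x, x1, x2⟩ := cof_bound hμ hd hx hs hc
  exact (h.2 x2).not_gt x1⟩

theorem le_of_ht {S : Set X} {p q r : Cond S} (h1 : r ≤ p) (h2 : r ≤ q) (h : q.ht ≤ p.ht) :
    p ≤ q := ⟨h, fun x hx => (h1.2 x (hx.trans_le h)).symm.trans (h2.2 x hx)⟩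

theorem dirClosed [WellFoundedLT X] [OrderBot X] (hb : Bd X ν) (hμ : μ ≤ ν) :
    DirClosed (Cond (Forb μ T)) μ := by
  intro s hc hs
  obtain ⟨b, hb'⟩ := hb.fam (hc.le.trans hμ) fun p : s => p.1.ht
  obtain ⟨d, hd⟩ := exists_isLUB (s := range fun p : s => p.1.ht)
    ⟨b, by rintro _ ⟨p, rfl⟩; exact (hb' p).le⟩
  have cmp : ∀ p q : s, q.1.ht ≤ p.1.ht → p.1 ≤ q.1 := fun p q h => by
    obtain ⟨r, -, r1, r2⟩ := hs p p.2 q q.2
    exact le_of_ht r1 r2 h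
  by_cases h : ∃ p : s, p.1.ht = d
  · obtain ⟨p, hp⟩ := h
    exact ⟨p, fun q hq => cmp p ⟨q, hq⟩ (hp ▸ hd.1 ⟨⟨q, hq⟩, rfl⟩)⟩
  · obtain ⟨q, hq⟩ := exists_lower_bound (fun p : s => p.1)
      (fun p q => (le_total q.1.ht p.1.ht).imp (cmp p q) (cmp q p)) d
      (fun hm => hm.2 _ (by
        rintro _ ⟨p, rfl⟩
        exact lt_of_le_of_ne (hd.1 ⟨p, rfl⟩) fun e => h ⟨p, e⟩) (mk_range_le.trans_lt hc) hd)
      (fun p => hd.1 ⟨p, rfl⟩) fun x hx => by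
        obtain ⟨_, ⟨p, rfl⟩, h⟩ := (lt_isLUB_iff hd).1 hx
        exact ⟨p, h.le⟩
    exact ⟨q, fun p hp => hq ⟨p, hp⟩⟩

theorem DirClosed.chain {P : Type u} [PartialOrder P] (h : DirClosed P μ) {α : Ordinal.{u}}
    (hα : α < μ.ord) (s : Ordinal.{u} → P) (hs : ∀ β < α, ∀ γ < β, s β ≤ s γ) :
    ∃ q, ∀ β < α, q ≤ s β := by
  obtain ⟨q, hq⟩ := h (s '' Iio α) ((card_img s).trans_lt (lt_ord.1 hα)) (by
    rintro _ ⟨β, hβ, rfl⟩ _ ⟨γ, hγ, rfl⟩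
    rcases lt_trichotomy β γ with h | rfl | h
    · exact ⟨_, ⟨γ, hγ, rfl⟩, hs γ hγ β h, le_rfl⟩
    · exact ⟨_, ⟨β, hβ, rfl⟩, le_rfl, le_rfl⟩
    · exact ⟨_, ⟨β, hβ, rfl⟩, le_rfl, hs β hβ γ h⟩)
  exact ⟨q, fun β hβ => hq ⟨β, hβ, rfl⟩⟩

theorem comWins {P : Type u} [PartialOrder P] [OrderTop P] (h : DirClosed P μ) {δ : Ordinal.{u}}
    (hδ : δ ≤ μ.ord) : ComWins P δ := by
  classical
  have : Nonempty P := ⟨⊤⟩
  refine ⟨fun α s => if α = 0 then ⊤ else Classical.epsilon fun q => ∀ β, q ≤ s β,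
    fun α hα _ s h1 _ => ⟨fun h0 => if_pos h0, fun β hβ => ?_⟩⟩
  obtain ⟨q, hq⟩ := DirClosed.chain h (hα.trans_le hδ) s fun β hβ => (h1 β hβ).2
  simp only [if_neg (ne_of_gt (lt_of_le_of_lt zero_le hβ))]
  exact Classical.epsilon_spec (p := fun q => ∀ β : Iio α, q ≤ s β) ⟨q, fun β => hq β β.2⟩ ⟨β, hβ⟩

theorem ext_pt {S : Set X} (hb : Bd X ν) (hν : ℵ₀ ≤ ν) {α : Ordinal.{u}} (hα : α.card ≤ ν)
    (q : Cond S) (η : Ordinal.{u} → X) : ∃ r ≤ q, ∃ x ∈ r.c, ∀ β < α, η β < x := by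
  obtain ⟨y, hy⟩ := hb.ord hα η
  obtain ⟨b, h⟩ := hb.gt hν (max q.ht y)
  exact ⟨q.add _ b (le_max_left _ _) h, Cond.add_le _ _ _ _ _, _, mem_insert _ _,
    fun β hβ => (hy β hβ).trans_le (le_max_right _ _)⟩

theorem distrib [WellFoundedLT X] (hb : Bd X ν) (hν : ℵ₀ ≤ ν) (hθ : θ.card ≤ ν) (hκ : κ.ord ≤ θ)
    (hT : Fat θ T) {J : Type u} (hJ : #J ≤ ν) (S : J → Set X) (hS : ∀ j, ∀ d ∈ T, d ∉ S j) :
    StronglyDistributive (∀ j, Cond (S j)) κ := by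
  intro D hD p
  have : Nonempty (∀ j, Cond (S j)) := ⟨p⟩
  choose H hH using fun y : ∀ j, Cond (S j) => hb.fam hJ fun j => (y j).ht
  obtain ⟨r, r1, r2, r3⟩ := hT (∀ j, Cond (S j)) H fun α s => Classical.epsilon fun q =>
    (q ≤ p ∧ (α < κ.ord → q ∈ D α)) ∧ ∀ β, q ≤ (s β).1 ∧ ∀ j, (s β).2 < (q j).ht
  have key : ∀ α ≤ κ.ord, ((r α).1 ≤ p ∧ (α < κ.ord → (r α).1 ∈ D α)) ∧
      ∀ β : Iio α, (r α).1 ≤ (r β).1 ∧ ∀ j, (r β).2 < ((r α).1 j).ht := by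
    intro α
    induction α using WellFoundedLT.induction with | ind α ih =>
    intro hα
    have hc : α.card ≤ ν := (Ordinal.card_le_card (hα.trans hκ)).trans hθ
    have h1 : ∃ q ≤ p, ∀ β < α, q ≤ (r β).1 := by
      have i1 := fun β (hβ : β < α) => ih β hβ (hβ.le.trans hα)
      rcases Ordinal.zero_or_succ_or_isSuccLimit α with rfl | ⟨γ, rfl⟩ | h
      · exact ⟨p, le_rfl, fun β hβ => absurd hβ not_lt_zero⟩
      · refine ⟨(r γ).1, (i1 γ (Order.lt_succ γ)).1.1, fun β hβ => ?_⟩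
        rcases (Order.lt_succ_iff.1 hβ).lt_or_eq with h | rfl
        · exact ((i1 γ (Order.lt_succ γ)).2 ⟨β, h⟩).1
        · exact le_rfl
      · obtain ⟨b, hb'⟩ := hb.ord hc fun β => (r β).2
        obtain ⟨d, hd⟩ := exists_isLUB (s := (fun β => (r β).2) '' Iio α)
          ⟨b, by rintro _ ⟨β, hβ, rfl⟩; exact (hb' β hβ).le⟩
        choose q hq using fun j => exists_lower_bound
          (fun z : (fun β => (r β).1 j) '' Iio α => z.1)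
          (by
            rintro ⟨_, β, hβ, rfl⟩ ⟨_, γ, hγ, rfl⟩
            rcases lt_trichotomy β γ with h | rfl | h
            · exact Or.inr (((i1 γ hγ).2 ⟨β, h⟩).1 j)
            · exact Or.inl le_rfl
            · exact Or.inl (((i1 β hβ).2 ⟨γ, h⟩).1 j)) d
          (hS j d (r3 α (hα.trans hκ) h.pos d hd))
          (by
            rintro ⟨_, β, hβ, rfl⟩
            exact (hH _ j).le.trans
              ((r2 β (hβ.trans_le (hα.trans hκ))).trans (hd.1 ⟨β, hβ, rfl⟩)))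
          fun x hx => by
            obtain ⟨_, ⟨β, hβ, rfl⟩, h2⟩ := (lt_isLUB_iff hd).1 hx
            exact ⟨⟨_, β + 1, h.add_one_lt hβ, rfl⟩,
              (h2.trans (((i1 _ (h.add_one_lt hβ)).2 ⟨β, lt_add_one β⟩).2 j)).le⟩
        exact ⟨q, fun j => (hq j ⟨_, 0, h.pos, rfl⟩).trans ((i1 0 h.pos).1.1 j),
          fun β hβ j => hq j ⟨_, β, hβ, rfl⟩⟩
    obtain ⟨q, q1, q2⟩ := h1
    choose q' q3 x x1 x2 using fun j => ext_pt hb hν hc (q j) fun β => (r β).2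
    have h2 : ∃ z ≤ q', α < κ.ord → z ∈ D α := by
      by_cases h : α < κ.ord
      · obtain ⟨z, z1, z2⟩ := (hD α h).2 q'
        exact ⟨z, z2, fun _ => z1⟩
      · exact ⟨q', le_rfl, fun h' => absurd h' h⟩
    obtain ⟨z, z1, z2⟩ := h2
    have q4 : z ≤ q := z1.trans q3
    rw [r1 α]
    exact Classical.epsilon_spec (p := fun q => (q ≤ p ∧ (α < κ.ord → q ∈ D α)) ∧
      ∀ β : Iio α, q ≤ (r β).1 ∧ ∀ j, (r β).2 < (q j).ht) ⟨z, ⟨q4.trans q1, z2⟩, fun β =>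
        ⟨q4.trans (q2 β β.2), fun j =>
          (x2 j β β.2).trans (((q' j).sub _ (x1 j)).trans_le (z1 j).1)⟩⟩
  exact ⟨fun α => (r α).1, (key 0 zero_le).1.1, fun α hα => (key α hα.le).1.2 hα,
    fun β hβ α hα => ((key β hβ.le).2 ⟨α, hα⟩).1⟩

theorem distrib_iso {P Q : Type u} [PartialOrder P] [PartialOrder Q] (e : P ≃o Q)
    (h : StronglyDistributive P κ) : StronglyDistributive Q κ := fun D hD p => by
  obtain ⟨s, s1, s2, s3⟩ := h (fun α => e ⁻¹' D α) (fun α hα =>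
    ⟨(hD α hα).1.preimage e.monotone, fun q => by
      obtain ⟨z, z1, z2⟩ := (hD α hα).2 (e q)
      exact ⟨e.symm z, by simpa using z1, e.symm_apply_le.2 z2⟩⟩) (e.symm p)
  exact ⟨fun α => e (s α), e.le_symm_apply.1 s1, s2, fun β hβ α hα => e.monotone (s3 β hβ α hα)⟩

theorem exists_odd (hμ : ℵ₀ ≤ μ) {β : Ordinal.{u}} (hβ : β < μ.ord) :
    ∃ α < μ.ord, β < α ∧ α % 2 ≠ 0 := by
  refine ⟨2 * β + 1, succ_lt hμ (lt_ord.2 ?_), (Ordinal.le_mul_right β two_pos).trans_lt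
    (lt_add_one _), by rw [Ordinal.mul_add_mod_self, Ordinal.mod_eq_of_lt one_lt_two]; simp⟩
  rw [Ordinal.card_mul]
  exact mul_lt_of_lt hμ (by simpa using (natCast_lt_aleph0 (n := 2)).trans_le hμ) (lt_ord.1 hβ)

theorem not_com [WellFoundedLT X] [OrderBot X] (hb : Bd X ν) (hμ : μ.IsRegular) (hν : μ ≤ ν)
    (hθ : μ.ord ≤ θ) (hT : Fat θ T) {δ : Ordinal.{u}} (hδ : μ.ord < δ) :
    ¬ ComWins (Cond (Forb μ T)) δ := by
  classical
  rintro ⟨σ, hσ⟩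
  have : Nonempty (Cond (Forb μ T)) := ⟨⊤⟩
  obtain ⟨r, r1, r2, r3⟩ := hT (Cond (Forb μ T)) Cond.ht fun α s =>
    if α % 2 = 0 then σ α fun β => (s β).1 else Classical.epsilon fun q =>
      (∀ β, q ≤ (s β).1) ∧ ∃ x ∈ q.c, ∀ β, (s β).2 < x
  have e1 : ∀ α, α % 2 = 0 → (r α).1 = σ α fun β => (r β).1 := fun α h => by rw [r1, if_pos h]
  have key : ∀ α < μ.ord, LegalMove (fun β => (r β).1) α (r α).1 ∧
      (α % 2 ≠ 0 → ∃ x ∈ (r α).1.c, ∀ β < α, (r β).2 < x) := by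
    intro α
    induction α using WellFoundedLT.induction with | ind α ih =>
    intro hα
    by_cases h : α % 2 = 0
    · refine ⟨?_, fun h' => absurd h h'⟩
      rw [e1 α h]
      exact hσ α (hα.trans hδ) h _ (fun β hβ => (ih β hβ (hβ.trans hα)).1) fun β _ => e1 β
    · obtain ⟨q, hq⟩ := DirClosed.chain (dirClosed hb hν) hα (fun β => (r β).1)
        fun β hβ => (ih β hβ (hβ.trans hα)).1.2
      obtain ⟨q', q3, x, x1, x2⟩ := ext_pt hb (hμ.aleph0_le.trans hν)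
        ((lt_ord.1 hα).le.trans hν) q fun β => (r β).2
      have h2 := Classical.epsilon_spec (p := fun q : Cond (Forb μ T) =>
        (∀ β : Iio α, q ≤ (r β).1) ∧ ∃ x ∈ q.c, ∀ β : Iio α, (r β).2 < x)
        ⟨q', fun β => q3.trans (hq β β.2), x, x1, fun β => x2 β β.2⟩
      have h3 := r1 α
      rw [if_neg h] at h3
      rw [← h3] at h2
      obtain ⟨h4, y, y1, y2⟩ := h2
      exact ⟨⟨fun h0 => absurd (by simp [h0]) h, fun β hβ => h4 ⟨β, hβ⟩⟩,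
        fun _ => ⟨y, y1, fun β hβ => y2 ⟨β, hβ⟩⟩⟩
  have ev : μ.ord % 2 = 0 := by
    rw [← Ordinal.dvd_iff_mod_eq_zero]
    exact (Ordinal.dvd_iff_mod_eq_zero.2 omega_mod_two).trans
      (Ordinal.isSuccPrelimit_iff_omega0_dvd.1 (isSuccLimit_ord hμ.aleph0_le).isSuccPrelimit)
  have hq := (hσ μ.ord hδ ev _ (fun β hβ => (key β hβ).1) fun β _ => e1 β).2
  set q := σ μ.ord fun β => (r β).1
  obtain ⟨b, hb'⟩ := hb.ord ((card_ord μ).trans_le hν) fun β => (r β).2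
  obtain ⟨d, hd⟩ := exists_isLUB (s := (fun β => (r β).2) '' Iio μ.ord)
    ⟨b, by rintro _ ⟨β, hβ, rfl⟩; exact (hb' β hβ).le⟩
  have pt : ∀ β < μ.ord, ∃ x ∈ q.c, x < d ∧ ∀ β' ≤ β, (r β').2 < x := fun β hβ => by
    obtain ⟨α, a1, a2, a3⟩ := exists_odd hμ.aleph0_le hβ
    obtain ⟨x, x1, x2⟩ := (key α a1).2 a3
    exact ⟨x, Cond.mem_of_le (hq α a1) x1, (((r α).1.sub x x1).trans_le
      (r2 α (a1.trans_le hθ))).trans_le (hd.1 ⟨α, a1, rfl⟩), fun β' h => x2 β' (h.trans_lt a2)⟩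
  refine q.nolim d (mem_forb hμ (r3 _ hθ hμ.ord_pos d hd) hd fun β hβ => ?_) (hd.2 ?_)
    ⟨?_, fun γ hγ => ?_⟩
  · obtain ⟨x, -, x2, x3⟩ := pt β hβ
    exact ⟨x, x2, fun β' h => (x3 β' h.le).le⟩
  · rintro _ ⟨β, hβ, rfl⟩
    obtain ⟨x, x1, -, x3⟩ := pt β hβ
    exact ((x3 β le_rfl).trans (q.sub x x1)).le
  · obtain ⟨x, x1, x2, -⟩ := pt 0 hμ.ord_pos
    exact ⟨x, x1, x2⟩
  · obtain ⟨_, ⟨β, hβ, rfl⟩, h⟩ := (lt_isLUB_iff hd).1 hγ
    obtain ⟨x, x1, x2, x3⟩ := pt β hβ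
    exact ⟨x, x1, h.trans (x3 β le_rfl), x2⟩

end Pool.Agent.MP_77bbd4_lc.NP
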