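import Pool.Agent.MP_77bbd4_lc.NP.Pos

/-! The full product of the posets is nowhere distributive. -/

universe u

open Set Cardinal

namespace Pool.Agent.MP_77bbd4_lc.NP

variable {X : Type u} [LinearOrder X] {ν μ κ : Cardinal.{u}} {T : Set X}

theorem add_set (p : Cond (Forb μ T)) {A : Set X} {b : X} (h1 : ∀ x ∈ A, p.ht ≤ x ∧ x < b)
    (h2 : p.ht ≤ b) (h3 : #A < μ) : ∃ q ≤ p, q.ht = b ∧ q.c = p.c ∪ A := by
  have key : ∀ x < p.ht, (x ∈ p.c ∪ A ↔ x ∈ p.c) := fun x hx =>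
    ⟨fun h => h.elim id fun h => absurd (h1 x h).1 hx.not_ge, Or.inl⟩
  refine ⟨⟨b, p.c ∪ A, fun x hx => hx.elim (fun h => (p.sub x h).trans_le h2) fun h => (h1 x h).2,
    fun δ hδ _ hl => ?_⟩, ⟨h2, key⟩, rfl, rfl⟩
  rcases le_or_gt δ p.ht with h | h
  · exact p.nolim δ hδ h (hl.congr fun x hx => key x (hx.trans_le h))
  · refine hδ.2 (A ∩ Iio δ) inter_subset_right ((mk_le_mk_of_subset inter_subset_left).trans_lt h3)
      ⟨fun x hx => hx.2.le, fun u hu => not_lt.1 fun hlt => ?_⟩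
    obtain ⟨x, x1, x2, x3⟩ := hl.2 _ (max_lt hlt h)
    rw [max_lt_iff] at x2
    exact x1.elim (fun h => (p.sub x h).not_gt x2.2) fun h => (hu ⟨h, x3⟩).not_gt x2.1

variable {I : Type u}

/-- Families whose sets alternate at least `α` times. -/
def Alt (S : I → Set X) (α : Ordinal.{u}) : Set (∀ i, Cond (S i)) :=
  {z | ∃ f : Ordinal.{u} → X, ∀ β < α, ∀ i, f β < (z i).ht ∧
    ∀ γ < β, ∃ x ∈ (z i).c, f γ ≤ x ∧ x < f β}

theorem alt_lower (S : I → Set X) (α : Ordinal.{u}) : IsLowerSet (Alt S α) := by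
  rintro z z' h ⟨f, hf⟩
  refine ⟨f, fun β hβ i => ⟨(hf β hβ i).1.trans_le (h i).1, fun γ hγ => ?_⟩⟩
  obtain ⟨x, x1, x2⟩ := (hf β hβ i).2 γ hγ
  exact ⟨x, Cond.mem_of_le (h i) x1, x2⟩

theorem alt_dense (hb : Bd X ν) (hν : ℵ₀ ≤ ν) (hμ : μ ≤ ν) (hI : #I ≤ ν) (T : I → Set X)
    {α : Ordinal.{u}} (hα : α < μ.ord) (z : ∀ i, Cond (Forb μ (T i))) :
    ∃ w ∈ Alt (fun i => Forb μ (T i)) α, w ≤ z := by
  have hc := lt_ord.1 hα
  obtain ⟨a, ha⟩ := hb.fam hI fun i => (z i).ht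
  obtain ⟨g, hg⟩ := exists_seq hb hν (hc.le.trans hμ) id a
  obtain ⟨b, hb'⟩ := hb.ord (hc.le.trans hμ) g
  choose p p1 p2 p3 using fun i => add_set (z i) (A := g '' Iio α) (b := max b a)
    (by
      rintro _ ⟨β, hβ, rfl⟩
      exact ⟨((ha i).trans (hg β hβ).1).le, (hb' β hβ).trans_le (le_max_left _ _)⟩)
    ((ha i).le.trans (le_max_right _ _)) ((card_img _).trans_lt hc)
  exact ⟨p, ⟨g, fun β hβ i => ⟨p2 i ▸ (hb' β hβ).trans_le (le_max_left _ _), fun γ hγ =>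
    ⟨g γ, p3 i ▸ Or.inr ⟨γ, hγ.trans hβ, rfl⟩, le_rfl, ((hg β hβ).2 γ hγ).2⟩⟩⟩, p1⟩

theorem alt_empty [WellFoundedLT X] [Nonempty I] (hμ : μ.IsRegular) (c : X → I)
    (z : ∀ i, Cond (Forb μ (c ⁻¹' {i}))) :
    ∃ α < μ.ord, z ∉ Alt (fun i => Forb μ (c ⁻¹' {i})) α := by
  by_contra hn
  simp only [not_exists, not_and, not_not] at hn
  obtain ⟨i0⟩ := ‹Nonempty I›
  have : Nonempty X := ⟨(z i0).ht⟩
  let g := fixp fun α (s : Iio α → X) =>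
    Classical.epsilon (IsLeast {y | ∀ i β, ∃ x ∈ (z i).c, s β ≤ x ∧ x < y})
  have key : ∀ α < μ.ord, (∀ i, g α < (z i).ht) ∧
      ∀ i, ∀ β : Iio α, ∃ x ∈ (z i).c, g β ≤ x ∧ x < g α := by
    intro α hα
    obtain ⟨f, hf⟩ := hn _ (succ_lt hμ.aleph0_le hα)
    suffices h : ∀ β < α + 1, g β ≤ f β ∧ ∀ i, ∀ γ : Iio β, ∃ x ∈ (z i).c, g γ ≤ x ∧ x < g β from
      ⟨fun i => (h α (lt_add_one α)).1.trans_lt (hf α (lt_add_one α) i).1, (h α (lt_add_one α)).2⟩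
    intro β
    induction β using WellFoundedLT.induction with | ind β ih =>
    intro hβ
    have h1 : f β ∈ {y | ∀ i, ∀ γ : Iio β, ∃ x ∈ (z i).c, g γ ≤ x ∧ x < y} := fun i γ => by
      obtain ⟨x, x1, x2, x3⟩ := (hf β hβ i).2 γ γ.2
      exact ⟨x, x1, (ih γ γ.2 (γ.2.trans hβ)).1.trans x2, x3⟩
    obtain ⟨y, y1, y2⟩ := wellFounded_lt.has_min _ ⟨_, h1⟩
    have h2 : IsLeast {y | ∀ i, ∀ γ : Iio β, ∃ x ∈ (z i).c, g γ ≤ x ∧ x < y} (g β) := by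
      rw [show g β = _ from fixp_eq _ β]
      exact Classical.epsilon_spec ⟨y, y1, fun w hw => not_lt.1 (y2 w hw)⟩
    exact ⟨h2.2 h1, h2.1⟩
  obtain ⟨d, hd⟩ := exists_isLUB (s := g '' Iio μ.ord)
    ⟨(z i0).ht, by rintro _ ⟨β, hβ, rfl⟩; exact ((key β hβ).1 i0).le⟩
  have s1 : ∀ i, ∀ β < μ.ord, ∃ x ∈ (z i).c, x < d ∧ ∀ γ ≤ β, g γ ≤ x := fun i β hβ => by
    have h1 := succ_lt hμ.aleph0_le hβ
    obtain ⟨x, x1, x2, x3⟩ := (key _ h1).2 i ⟨β, lt_add_one β⟩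
    refine ⟨x, x1, x3.trans_le (hd.1 ⟨_, h1, rfl⟩), fun γ h => ?_⟩
    rcases h.lt_or_eq with h | rfl
    · obtain ⟨y, -, y2, y3⟩ := (key β hβ).2 i ⟨γ, h⟩
      exact (y2.trans y3.le).trans x2
    · exact x2
  refine (z (c d)).nolim d (mem_forb hμ rfl hd fun β hβ => ?_) (hd.2 ?_) ⟨?_, fun γ hγ => ?_⟩
  · obtain ⟨x, -, x2, x3⟩ := s1 i0 β hβ
    exact ⟨x, x2, fun β' h => x3 β' h.le⟩
  · rintro _ ⟨β, hβ, rfl⟩
    exact ((key β hβ).1 _).le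
  · obtain ⟨x, x1, x2, -⟩ := s1 (c d) 0 hμ.ord_pos
    exact ⟨x, x1, x2⟩
  · obtain ⟨_, ⟨β, hβ, rfl⟩, h⟩ := (lt_isLUB_iff hd).1 hγ
    obtain ⟨x, x1, x2, x3⟩ := s1 (c d) β hβ
    exact ⟨x, x1, h.trans_le (x3 β le_rfl), x2⟩

theorem main (μ κ : Cardinal.{u}) (hμ : μ.IsRegular) (I : Type u) [Nontrivial I] :
    ∃ (P : I → Type u) (_ : ∀ i, PartialOrder (P i)) (_ : ∀ i, OrderTop (P i)),
      (∀ i, DirClosed (P i) μ ∧ StronglyDistributive (P i) κ ∧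
        ∀ δ, ComWins (P i) δ ↔ δ ≤ μ.ord) ∧
      (∀ J : Set I, J ≠ Set.univ → StronglyDistributive (∀ i : J, P i) κ) ∧
      ∃ D : Ordinal.{u} → Set (∀ i, P i), (∀ α < μ.ord, IsOpenDense (D α)) ∧
        ∀ z, ∃ α < μ.ord, z ∉ D α := by
  set ν := max (max μ κ) #I
  have h1 : μ ≤ ν := (le_max_left _ _).trans (le_max_left _ _)
  have h2 : κ ≤ ν := (le_max_right _ _).trans (le_max_left _ _)
  have h3 : #I ≤ ν := le_max_right _ _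
  have h0 := hμ.aleph0_le.trans h1
  have h4 := (card_ord ν).le
  obtain ⟨X, _, _, c, hb, hf⟩ := exists_fat h0 h4 I h3
  obtain ⟨b, -⟩ := hb ∅ (by simp)
  have : Nonempty X := ⟨b⟩
  let _ : OrderBot X := WellFoundedLT.toOrderBot X
  refine ⟨fun i => Cond (Forb μ (c ⁻¹' {i})), inferInstance, inferInstance,
    fun i => ⟨dirClosed hb h1, ?_, fun δ =>
      ⟨fun h => not_lt.1 fun h' => not_com hb hμ h1 (ord_le_ord.2 h1) (hf i) h' h,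
        comWins (dirClosed hb h1)⟩⟩, fun J hJ => ?_, Alt _,
    fun α hα => ⟨alt_lower _ α, alt_dense hb h0 h1 h3 _ hα⟩, alt_empty hμ c⟩
  · obtain ⟨j, hj⟩ := exists_ne i
    exact distrib_iso (OrderIso.funUnique PUnit.{u + 1} _) (distrib hb h0 h4 (ord_le_ord.2 h2) (hf j)
      (by simpa using one_lt_aleph0.le.trans h0) (fun _ => Forb μ (c ⁻¹' {i}))
      fun _ d h h' => hj (h.symm.trans h'.1))
  · obtain ⟨j, hj⟩ := (ne_univ_iff_exists_notMem J).1 hJ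
    exact distrib hb h0 h4 (ord_le_ord.2 h2) (hf j) ((mk_set_le J).trans h3)
      (fun i : J => Forb μ (c ⁻¹' {i.1})) fun i d h h' => hj (h.symm.trans h'.1 ▸ i.2)

end Pool.Agent.MP_77bbd4_lc.NP
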